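import Pool.Agent.Work.MP_2a05c6_ag.BrB
import Pool.Agent.Work.MP_2a05c6_ag.Quadric

/-!
Fano manifolds with a torus action of complexity one have Picard number at most twice the
dimension.  The statement is made in the Cox ring presentation `X(A, P)` of these varieties:
`X` is the quotient of the semistable locus of the anticanonical class in `Spec R(A, P)` by the
quasitorus `H = Hom (K, ℂˣ)`, its class group is `K` and its dimension is `s + 1`.
-/

set_option autoImplicit false

namespace Pool.Agent.Results.MP_2a05c6_ag.ComplexityOne

open Pool.Agent.Work.MP_2a05c6_ag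

theorem result (D : APData) (h : D.Admissible) (hs : D.SmoothFano) :
    Module.finrank ℤ D.K ≤ 2 * (D.s + 1) ∧ 2 * Module.finrank ℤ D.K < 9 * (D.s + 1) := by
  have := h.bound hs
  omega

/-- The hypotheses hold for non-toric data: the smooth quadric threefold. -/
theorem hypotheses_hold : ∃ D : APData, D.Admissible ∧ D.SmoothFano ∧ D.r = 2 ∧ D.s = 2 :=
  ⟨quadric, Quadric.adm, Quadric.smoothFano, rfl, rfl⟩

end Pool.Agent.Results.MP_2a05c6_ag.ComplexityOne
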