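import Pool.Agent.Work.MP_2a05c6_ag.T.Conv

open Pool.Agent.Work.MP_2a05c6_ag.T

/-- Every Gorenstein toric Fano variety of dimension `d`, simplicial or not, has Picard number at
most `2 d`, with equality exactly for the free sums of hexagons, that is, for powers of the del
Pezzo surface of degree six. -/
theorem Pool.Agent.Results.MP_2a05c6_ag.GorensteinToric.result (d : ℕ) (hd : 1 ≤ d)
    (U : Finset (Fin d → ℤ)) (h : IsReflexive U) :
    Module.rank ℝ (PicR U) ≤ 2 * d ∧ (Module.rank ℝ (PicR U) = 2 * d ↔ IsHexagonSum U) :=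
  ⟨pic_bound hd h, pic_eq hd h, pic_conv hd h⟩
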